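import Pool.Agent.MP_856573_co.H74.Bas

/-! The choice of the designated triangles and the count of the costs. -/

namespace Pool.Agent.MP_856573_co.H74

open Pool.Agent.MP_31805c_co.H47 (K4)

namespace Sel1Aux

variable {V : Type} [DecidableEq V] {c : V → K4} {𝒮 : Finset (Finset V)}
  {I : Finset V → Finset V} {T0 : Finset V}

lemma lt_irr (h : Lam c 𝒮 I T0) {T : Finset V} (hT : T ∈ 𝒮) : ¬ Lt I T T :=
  fun ⟨_, h1, h2⟩ => Finset.disjoint_left.1 (h.dis T hT) h1 h2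

lemma lt_tr (h : Lam c 𝒮 I T0) {T M N : Finset V} (hM : M ∈ 𝒮) (hN : N ∈ 𝒮) (h1 : Lt I T M)
    (h2 : Lt I M N) : Lt I T N :=
  let ⟨v, a, b⟩ := h1
  ⟨v, a, (h.sub M hM N hN h2).2 b⟩

lemma lt_card (h : Lam c 𝒮 I T0) {T M : Finset V} (hT : T ∈ 𝒮) (hM : M ∈ 𝒮) (h1 : Lt I T M) :
    (I T).card < (I M).card := by
  obtain ⟨v, a, b⟩ := id h1
  exact Finset.card_lt_card ((Finset.ssubset_iff_of_subset (h.sub T hT M hM h1).2).2
    ⟨v, b, Finset.disjoint_left.1 (h.dis T hT) a⟩)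

lemma up_chain (h : Lam c 𝒮 I T0) {T M N : Finset V} (hT : T ∈ 𝒮) (hM : M ∈ 𝒮) (hN : N ∈ 𝒮)
    (h1 : Lt I T M) (h2 : Lt I T N) : M = N ∨ Lt I M N ∨ Lt I N M := by
  by_cases e : M = N
  · exact Or.inl e
  obtain ⟨v, hv⟩ := h.ne T hT
  exact Or.inr ((h.lam M hM N hN e).resolve_left fun d =>
    Finset.disjoint_left.1 d ((h.sub T hT M hM h1).2 hv) ((h.sub T hT N hN h2).2 hv))

lemma corner (h : Lam c 𝒮 I T0) {J M T : Finset V} (hJ : J ∈ 𝒮) (hM : M ∈ 𝒮) (hT : T ∈ 𝒮)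
    (h1 : Lt I J M) (h2 : Lt I M T) {v : V} (a : v ∈ J) (b : v ∈ T) : v ∈ M :=
  (Finset.mem_union.1 ((h.sub J hJ M hM h1).1 a)).resolve_right fun e =>
    Finset.disjoint_left.1 (h.dis T hT) b ((h.sub M hM T hT h2).2 e)

lemma inter_le (h : Lam c 𝒮 I T0) {J T : Finset V} (hJ : J ∈ 𝒮) (hT : T ∈ 𝒮) (h1 : Lt I J T) :
    (J ∩ T).card ≤ 2 := by
  obtain ⟨v, a, b⟩ := h1
  have h2 : J ∩ T ⊂ J := (Finset.ssubset_iff_of_subset Finset.inter_subset_left).2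
    ⟨v, a, fun e => Finset.disjoint_left.1 (h.dis T hT) (Finset.mem_inter.1 e).2 b⟩
  have := Finset.card_lt_card h2
  rw [h.card J hJ] at this
  omega

/-- `J` is a child of `T`. -/
def Ch (𝒮 : Finset (Finset V)) (I : Finset V → Finset V) (T J : Finset V) : Prop :=
  J ∈ 𝒮 ∧ Lt I J T ∧ ∀ M ∈ 𝒮, Lt I J M → ¬ Lt I M T

lemma ex_ch (h : Lam c 𝒮 I T0) {T X : Finset V} (hX : X ∈ 𝒮) (h1 : Lt I X T) :
    ∃ J, Ch 𝒮 I T J ∧ (X = J ∨ Lt I X J) := by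
  classical
  obtain ⟨J, hJ, hm⟩ := Finset.exists_max_image
    (𝒮.filter fun M => (X = M ∨ Lt I X M) ∧ Lt I M T) (fun M => (I M).card)
    ⟨X, Finset.mem_filter.2 ⟨hX, Or.inl rfl, h1⟩⟩
  obtain ⟨hJ, h2, h3⟩ := Finset.mem_filter.1 hJ
  refine ⟨J, ⟨hJ, h3, fun M hM h4 h5 => ?_⟩, h2⟩
  have h6 : Lt I X M := h2.elim (fun e => e ▸ h4) fun e => lt_tr h hJ hM e h4
  exact absurd (hm M (Finset.mem_filter.2 ⟨hM, Or.inr h6, h5⟩)) (not_le.2 (lt_card h hJ hM h4))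

omit [DecidableEq V] in
lemma Ch.inc {T J J' : Finset V} (h1 : Ch 𝒮 I T J) (h2 : Ch 𝒮 I T J') : ¬ Lt I J J' :=
  fun e => h1.2.2 J' h2.1 e h2.2.1

lemma ch_disj (h : Lam c 𝒮 I T0) {T J J' : Finset V} (h1 : Ch 𝒮 I T J) (h2 : Ch 𝒮 I T J')
    (e : J ≠ J') : Disjoint (I J) (I J') :=
  (h.lam J h1.1 J' h2.1 e).resolve_right fun d => d.elim (h1.inc h2) (h2.inc h1)

lemma ch_uniq (h : Lam c 𝒮 I T0) {T J J' X : Finset V} (hX : X ∈ 𝒮) (h1 : Ch 𝒮 I T J)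
    (h2 : Ch 𝒮 I T J') (a : X = J ∨ Lt I X J) (b : X = J' ∨ Lt I X J') : J = J' := by
  rcases a with rfl | a
  · exact b.resolve_right (h1.inc h2)
  rcases b with rfl | b
  · exact absurd a (h2.inc h1)
  · exact (up_chain h hX h1.1 h2.1 a b).resolve_right fun d => d.elim (h1.inc h2) (h2.inc h1)

lemma par_uniq (h : Lam c 𝒮 I T0) {T T' J : Finset V} (hT : T ∈ 𝒮) (hT' : T' ∈ 𝒮)
    (h1 : Ch 𝒮 I T J) (h2 : Ch 𝒮 I T' J) : T = T' :=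
  (up_chain h h1.1 hT hT' h1.2.1 h2.2.1).resolve_right fun d =>
    d.elim (h2.2.2 T hT h1.2.1) (h1.2.2 T' hT' h2.2.1)

lemma ex_par (h : Lam c 𝒮 I T0) {T X : Finset V} (hT : T ∈ 𝒮) (h1 : Lt I X T) (hX : X ∈ 𝒮) :
    ∃ P ∈ 𝒮, Ch 𝒮 I P X ∧ (P = T ∨ Lt I P T) := by
  classical
  obtain ⟨P, hP, hm⟩ := Finset.exists_min_image (𝒮.filter fun M => Lt I X M)
    (fun M => (I M).card) ⟨T, Finset.mem_filter.2 ⟨hT, h1⟩⟩
  obtain ⟨hP, h2⟩ := Finset.mem_filter.1 hP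
  have hc : Ch 𝒮 I P X := ⟨hX, h2, fun M hM h4 h5 =>
    absurd (hm M (Finset.mem_filter.2 ⟨hM, h4⟩)) (not_le.2 (lt_card h hM hP h5))⟩
  refine ⟨P, hP, hc, ?_⟩
  rcases up_chain h hX hP hT h2 h1 with e | e | e
  · exact Or.inl e
  · exact Or.inr e
  · exact absurd e (hc.2.2 T hT h1)

/-- Two incomparable members lie below `T`. -/
def ClA (𝒮 : Finset (Finset V)) (I : Finset V → Finset V) (T : Finset V) : Prop :=
  ∃ X ∈ 𝒮, ∃ Y ∈ 𝒮, Lt I X T ∧ Lt I Y T ∧ X ≠ Y ∧ ¬ Lt I X Y ∧ ¬ Lt I Y X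

/-- `J` contains an edge of a member above `T`. -/
def Bad (𝒮 : Finset (Finset V)) (I : Finset V → Finset V) (T J : Finset V) : Prop :=
  ∃ M ∈ 𝒮, Lt I T M ∧ 2 ≤ (J ∩ M).card

lemma cla_single (h : Lam c 𝒮 I T0) {T D : Finset V} (hA : ClA 𝒮 I T)
    (hD : ∀ J, Ch 𝒮 I T J → J = D) : ClA 𝒮 I D := by
  obtain ⟨X, hX, Y, hY, a, b, ne, n1, n2⟩ := hA
  obtain ⟨J, hJ, e1⟩ := ex_ch h hX a
  obtain ⟨J', hJ', e2⟩ := ex_ch h hY b
  rw [hD J hJ] at e1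
  rw [hD J' hJ'] at e2
  rcases e1 with rfl | e1
  · exact absurd (e2.resolve_left ne.symm) n2
  rcases e2 with rfl | e2
  · exact absurd e1 n1
  · exact ⟨X, hX, Y, hY, e1, e2, ne, n1, n2⟩

lemma bad_uniq (h : Lam c 𝒮 I T0) {T J J' : Finset V} (hT : T ∈ 𝒮) (h1 : Ch 𝒮 I T J)
    (h2 : Ch 𝒮 I T J') (b1 : Bad 𝒮 I T J) (b2 : Bad 𝒮 I T J') : J = J' := by
  have key : ∀ J J' M M', Ch 𝒮 I T J → Ch 𝒮 I T J' → M ∈ 𝒮 → M' ∈ 𝒮 → Lt I T M → Lt I T M' →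
      (M = M' ∨ Lt I M M') → 2 ≤ (J ∩ M).card → 2 ≤ (J' ∩ M').card → J = J' := by
    intro J J' M M' h1 h2 hM hM' a a' hle c1 c2
    have s1 : J ∩ M ⊆ T ∩ M := fun v hv => Finset.mem_inter.2
      ⟨corner h h1.1 hT hM h1.2.1 a (Finset.mem_inter.1 hv).1 (Finset.mem_inter.1 hv).2,
        (Finset.mem_inter.1 hv).2⟩
    have s2 : J' ∩ M' ⊆ T ∩ M := fun v hv => by
      obtain ⟨v1, v2⟩ := Finset.mem_inter.1 hv
      have v3 := corner h h2.1 hT hM' h2.2.1 a' v1 v2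
      exact Finset.mem_inter.2 ⟨v3, hle.elim (fun e => e ▸ v2) fun e => corner h hT hM hM' a e v3 v2⟩
    have c3 := inter_le h hT hM a
    have e1 := Finset.eq_of_subset_of_card_le s1 (by omega)
    have e2 := Finset.eq_of_subset_of_card_le s2 (by omega)
    have s3 : T ∩ M ⊆ T ∩ J ∩ J' := fun v hv => Finset.mem_inter.2
      ⟨Finset.mem_inter.2 ⟨(Finset.mem_inter.1 hv).1, (Finset.mem_inter.1 (e1 ▸ hv)).1⟩,
        (Finset.mem_inter.1 (e2 ▸ hv)).1⟩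
    have c4 := Finset.card_le_card s3
    rw [← e1] at c4
    exact (h.edge T hT J h1.1 J' h2.1 h1.2.1 h2.2.1 (c1.trans c4)).resolve_right
      fun d => d.elim (h1.inc h2) (h2.inc h1)
  obtain ⟨M, hM, a, c1⟩ := b1
  obtain ⟨M', hM', a', c2⟩ := b2
  rcases up_chain h hT hM hM' a a' with e | e | e
  · exact key J J' M M' h1 h2 hM hM' a a' (Or.inl e) c1 c2
  · exact key J J' M M' h1 h2 hM hM' a a' (Or.inr e) c1 c2
  · exact (key J' J M' M h2 h1 hM' hM a' a (Or.inr e) c2 c1).symm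

/-- The properties of the set of heads. -/
structure HdP (𝒮 Hd : Finset (Finset V)) (I : Finset V → Finset V) (T0 : Finset V) : Prop where
  sub : Hd ⊆ 𝒮
  root : T0 ∉ Hd
  one : ∀ T ∈ 𝒮, ∀ J J', Ch 𝒮 I T J → Ch 𝒮 I T J' → J ∉ Hd → J' ∉ Hd → J = J'
  ex : ∀ T ∈ 𝒮, ∀ J, Ch 𝒮 I T J → ∃ D, Ch 𝒮 I T D ∧ D ∉ Hd
  cla : ∀ T ∈ 𝒮, ∀ D J, Ch 𝒮 I T D → D ∉ Hd → Ch 𝒮 I T J → ClA 𝒮 I J → ClA 𝒮 I D
  bad : ∀ T ∈ 𝒮, ∀ D J, Ch 𝒮 I T D → D ∉ Hd → Ch 𝒮 I T J → J ≠ D → Bad 𝒮 I T D →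
    ClA 𝒮 I D ∧ ¬ ClA 𝒮 I J

lemma ex_hd (h : Lam c 𝒮 I T0) : ∃ Hd, HdP 𝒮 Hd I T0 := by
  classical
  let sc : Finset V → Finset V → ℕ := fun T J =>
    (if ClA 𝒮 I J then 2 else 0) + if Bad 𝒮 I T J then 0 else 1
  have hdes : ∀ T : Finset V, ∃ D, ∀ J, Ch 𝒮 I T J → Ch 𝒮 I T D ∧ sc T J ≤ sc T D := by
    intro T
    by_cases e : ∃ J, Ch 𝒮 I T J
    · obtain ⟨J, hJ⟩ := e
      obtain ⟨D, hD, hm⟩ := Finset.exists_max_image (𝒮.filter (Ch 𝒮 I T)) (sc T)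
        ⟨J, Finset.mem_filter.2 ⟨hJ.1, hJ⟩⟩
      exact ⟨D, fun J' hJ' => ⟨(Finset.mem_filter.1 hD).2,
        hm J' (Finset.mem_filter.2 ⟨hJ'.1, hJ'⟩)⟩⟩
    · exact ⟨T, fun J hJ => absurd ⟨J, hJ⟩ e⟩
  choose des hdes using hdes
  let Hd := 𝒮.filter fun J => ∃ T ∈ 𝒮, Ch 𝒮 I T J ∧ des T ≠ J
  have key : ∀ T ∈ 𝒮, ∀ J, Ch 𝒮 I T J → (J ∉ Hd ↔ des T = J) := by
    intro T hT J hJ
    constructor
    · intro e
      by_contra ne
      exact e (Finset.mem_filter.2 ⟨hJ.1, T, hT, hJ, ne⟩)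
    · intro e hm
      obtain ⟨-, T', hT', h1, h2⟩ := Finset.mem_filter.1 hm
      exact h2 (par_uniq h hT hT' hJ h1 ▸ e)
  refine ⟨Hd, Finset.filter_subset _ _, fun e => ?_, fun T hT J J' h1 h2 a b => ?_,
    fun T hT J hJ => ?_, fun T hT D J h1 a h2 hA => ?_, fun T hT D J h1 a h2 ne hB => ?_⟩
  · obtain ⟨-, T, hT, h1, -⟩ := Finset.mem_filter.1 e
    by_cases e' : T = T0
    · exact lt_irr h h.root (e' ▸ h1.2.1)
    · exact lt_irr h h.root (lt_tr h hT h.root h1.2.1 (h.top T hT e'))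
  · exact ((key T hT J h1).1 a).symm.trans ((key T hT J' h2).1 b)
  · exact ⟨des T, (hdes T J hJ).1, (key T hT _ (hdes T J hJ).1).2 rfl⟩
  · have h3 := (hdes T J h2).2
    rw [(key T hT D h1).1 a] at h3
    by_contra hn
    simp only [sc, if_pos hA, if_neg hn] at h3
    split_ifs at h3 <;> omega
  · have h3 := (hdes T J h2).2
    rw [(key T hT D h1).1 a] at h3
    have h4 : ¬ Bad 𝒮 I T J := fun e => ne (bad_uniq h hT h2 h1 e hB)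
    simp only [sc, if_pos hB, if_neg h4] at h3
    split_ifs at h3 with e1 e2 e2
    · omega
    · omega
    · exact ⟨e2, e1⟩
    · omega

variable {Hd : Finset (Finset V)}

lemma sep (h : Lam c 𝒮 I T0) (p : HdP 𝒮 Hd I T0) {X Y : Finset V} (hX : X ∈ 𝒮) (hY : Y ∈ 𝒮)
    (a : X ∉ Hd) (b : Y ∉ Hd) (ne : X ≠ Y) (n1 : ¬ Lt I X Y) (n2 : ¬ Lt I Y X) :
    ∃ J ∈ Hd, ¬ (Lt I X J ↔ Lt I Y J) := by
  classical
  by_contra hn
  have hn' : ∀ J ∈ Hd, (Lt I X J ↔ Lt I Y J) := fun J hJ => by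
    by_contra e
    exact hn ⟨J, hJ, e⟩
  have x0 : X ≠ T0 := fun e => n2 (e ▸ h.top Y hY (e ▸ ne.symm))
  have y0 : Y ≠ T0 := fun e => n1 (e ▸ h.top X hX (e ▸ ne))
  obtain ⟨L, hL, hm⟩ := Finset.exists_min_image (𝒮.filter fun M => Lt I X M ∧ Lt I Y M)
    (fun M => (I M).card) ⟨T0, Finset.mem_filter.2 ⟨h.root, h.top X hX x0, h.top Y hY y0⟩⟩
  obtain ⟨hL, l1, l2⟩ := Finset.mem_filter.1 hL
  have low : ∀ J, Ch 𝒮 I L J → Lt I X J → Lt I Y J → False := fun J hJ c d =>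
    absurd (hm J (Finset.mem_filter.2 ⟨hJ.1, c, d⟩)) (not_le.2 (lt_card h hJ.1 hL hJ.2.1))
  obtain ⟨J, hJ, e1⟩ := ex_ch h hX l1
  obtain ⟨J', hJ', e2⟩ := ex_ch h hY l2
  by_cases c1 : J ∈ Hd
  · have := e1.resolve_left fun e => a (e ▸ c1)
    exact low J hJ this ((hn' J c1).1 this)
  by_cases c2 : J' ∈ Hd
  · have := e2.resolve_left fun e => b (e ▸ c2)
    exact low J' hJ' ((hn' J' c2).2 this) this
  obtain rfl := p.one L hL J J' hJ hJ' c1 c2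
  rcases e1 with rfl | e1
  · exact n2 (e2.resolve_left ne.symm)
  rcases e2 with rfl | e2
  · exact n1 e1
  · exact low J hJ e1 e2

lemma cla_of_head (h : Lam c 𝒮 I T0) (p : HdP 𝒮 Hd I T0) {T H : Finset V} (hT : T ∈ 𝒮)
    (hH : H ∈ Hd) (h1 : Lt I H T) : ClA 𝒮 I T := by
  obtain ⟨P, hP, hc, e⟩ := ex_par h hT h1 (p.sub hH)
  obtain ⟨D, hD, hn⟩ := p.ex P hP H hc
  exact ⟨H, hc.1, D, hD.1, h1, e.elim (fun e => e ▸ hD.2.1) fun e => lt_tr h hP hT hD.2.1 e,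
    fun e => hn (e ▸ hH), hc.inc hD, hD.inc hc⟩

lemma rr_uniq (h : Lam c 𝒮 I T0) (p : HdP 𝒮 Hd I T0) {J T T' : Finset V} (h1 : Rr 𝒮 Hd I J T)
    (h2 : Rr 𝒮 Hd I J T') : T = T' := by
  obtain ⟨hJ, a1, -, a2, -, a3⟩ := h1
  obtain ⟨-, b1, -, b2, -, b3⟩ := h2
  rcases up_chain h hJ (p.sub a1) (p.sub b1) a2 b2 with e | e | e
  · exact e
  · exact absurd a1 (b3 T (p.sub a1) a2 e)
  · exact absurd b1 (a3 T' (p.sub b1) b2 e)

open Classical in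
/-- The cost of one member. -/
noncomputable def co (𝒮 Hd : Finset (Finset V)) (I : Finset V → Finset V) (J : Finset V) : ℕ :=
  (if J ∈ Hd then 9 else 0) + (if J ∈ Hd ∧ ∃ X, Rr 𝒮 Hd I X J then 6 else 0) +
    ∑ T ∈ Hd, if Rr 𝒮 Hd I J T then (if J \ T ⊆ Hd.biUnion id then 3 else 8) else 0

lemma co_head {J : Finset V} (hJ : J ∈ Hd) :
    co 𝒮 Hd I J ≤ 15 ∧ ((∀ X ∈ 𝒮, ¬ Lt I X J) → co 𝒮 Hd I J = 9) := by
  have e : ∀ T, ¬ Rr 𝒮 Hd I J T := fun T r => r.2.2.1 hJ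
  simp only [co, if_pos hJ, if_neg (e _), Finset.sum_const_zero]
  refine ⟨by split_ifs <;> omega, fun hn => ?_⟩
  rw [if_neg fun ⟨_, X, r⟩ => hn X r.1 r.2.2.2.1]
  rfl

lemma co_zero {J : Finset V} (hJ : J ∉ Hd) (e : ∀ T, ¬ Rr 𝒮 Hd I J T) : co 𝒮 Hd I J = 0 := by
  simp [co, hJ, e]

lemma co_rr (h : Lam c 𝒮 I T0) (p : HdP 𝒮 Hd I T0) {J T : Finset V} (r : Rr 𝒮 Hd I J T) :
    co 𝒮 Hd I J = if J \ T ⊆ Hd.biUnion id then 3 else 8 := by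
  rw [co, if_neg r.2.2.1, if_neg fun e => r.2.2.1 e.1, Finset.sum_eq_single T
    (fun T' _ ne => if_neg fun r' => ne (rr_uniq h p r' r)) fun e => absurd r.2.1 e, if_pos r]
  simp

open Classical in
/-- The surplus inside `T`. -/
noncomputable def su (𝒮 Hd : Finset (Finset V)) (I : Finset V → Finset V) (T : Finset V) : ℤ :=
  15 * ((I T \ Hd.biUnion id).card : ℤ) - ∑ J ∈ 𝒮.filter fun J => Lt I J T, (co 𝒮 Hd I J : ℤ)

open Classical in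
lemma su_rec (h : Lam c 𝒮 I T0) {T : Finset V} (hT : T ∈ 𝒮) (O : Finset V)
    (h1 : O ⊆ I T \ Hd.biUnion id) (h2 : ∀ J, Ch 𝒮 I T J → Disjoint O (I J)) :
    15 * (O.card : ℤ) + ∑ J ∈ 𝒮.filter (Ch 𝒮 I T), (su 𝒮 Hd I J - co 𝒮 Hd I J) ≤
      su 𝒮 Hd I T := by
  have hc : ∀ J ∈ 𝒮.filter (Ch 𝒮 I T), Ch 𝒮 I T J := fun J hJ => (Finset.mem_filter.1 hJ).2
  have a1 : O.card + ∑ J ∈ 𝒮.filter (Ch 𝒮 I T), (I J \ Hd.biUnion id).card ≤
      (I T \ Hd.biUnion id).card := by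
    rw [← Finset.card_biUnion fun J hJ J' hJ' ne => (ch_disj h (hc J hJ) (hc J' hJ') ne).mono
      Finset.sdiff_subset Finset.sdiff_subset, ← Finset.card_union_of_disjoint]
    · refine Finset.card_le_card (Finset.union_subset h1 (Finset.biUnion_subset.2 fun J hJ => ?_))
      exact Finset.sdiff_subset_sdiff (h.sub J (hc J hJ).1 T hT (hc J hJ).2.1).2 le_rfl
    · exact (Finset.disjoint_biUnion_right _ _ _).2 fun J hJ =>
        (h2 J (hc J hJ)).mono_right Finset.sdiff_subset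
  have a2 : (𝒮.filter fun X => Lt I X T) = (𝒮.filter (Ch 𝒮 I T)).biUnion
      fun J => insert J (𝒮.filter fun X => Lt I X J) := by
    ext X
    simp only [Finset.mem_filter, Finset.mem_biUnion, Finset.mem_insert]
    constructor
    · rintro ⟨hX, a⟩
      obtain ⟨J, hJ, e⟩ := ex_ch h hX a
      exact ⟨J, ⟨hJ.1, hJ⟩, e.imp_right fun e => ⟨hX, e⟩⟩
    · rintro ⟨J, ⟨-, hJ⟩, rfl | ⟨hX, e⟩⟩
      · exact ⟨hJ.1, hJ.2.1⟩
      · exact ⟨hX, lt_tr h hJ.1 hT e hJ.2.1⟩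
  have a3 : ∑ X ∈ 𝒮.filter fun X => Lt I X T, (co 𝒮 Hd I X : ℤ) =
      ∑ J ∈ 𝒮.filter (Ch 𝒮 I T), ((co 𝒮 Hd I J : ℤ) +
        ∑ X ∈ 𝒮.filter fun X => Lt I X J, (co 𝒮 Hd I X : ℤ)) := by
    rw [a2, Finset.sum_biUnion]
    · exact Finset.sum_congr rfl fun J hJ => Finset.sum_insert fun e =>
        lt_irr h (hc J hJ).1 (Finset.mem_filter.1 e).2
    · intro J hJ J' hJ' ne
      refine Finset.disjoint_left.2 fun X a b => ne ?_
      simp only [Finset.mem_insert, Finset.mem_filter] at a b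
      exact ch_uniq h (a.elim (fun e => e ▸ (hc J hJ).1) fun e => e.1) (hc J hJ) (hc J' hJ')
        (a.imp_right fun e => e.2) (b.imp_right fun e => e.2)
  have a4 : ((O.card : ℤ) + ∑ J ∈ 𝒮.filter (Ch 𝒮 I T), ((I J \ Hd.biUnion id).card : ℤ)) ≤
      (I T \ Hd.biUnion id).card := by exact_mod_cast a1
  simp only [su]
  rw [a3, Finset.sum_sub_distrib, Finset.sum_sub_distrib, Finset.sum_add_distrib, ← Finset.mul_sum]
  linarith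

/-- The bounds that are proved by induction. -/
structure Bds (𝒮 Hd : Finset (Finset V)) (I : Finset V → Finset V) (T : Finset V) : Prop where
  g : 15 ≤ su 𝒮 Hd I T
  b : ¬ ClA 𝒮 I T → (∃ J, Ch 𝒮 I T J) → 22 ≤ su 𝒮 Hd I T
  a1 : ClA 𝒮 I T → T ∉ Hd → (∀ M, ¬ Rr 𝒮 Hd I T M) → 21 ≤ su 𝒮 Hd I T
  a3 : ClA 𝒮 I T → T ∉ Hd → 18 ≤ su 𝒮 Hd I T
  a4 : ClA 𝒮 I T → ∀ M, Rr 𝒮 Hd I T M → (∃ H ∈ Hd, Lt I H T ∧ T \ M ⊆ H) → 21 ≤ su 𝒮 Hd I T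

lemma Bds.of22 {T : Finset V} (e : 22 ≤ su 𝒮 Hd I T) : Bds 𝒮 Hd I T :=
  ⟨by omega, fun _ _ => e, fun _ _ _ => by omega, fun _ _ => by omega, fun _ _ _ _ => by omega⟩

lemma Bds.of21 {T : Finset V} (hA : ClA 𝒮 I T) (e : 21 ≤ su 𝒮 Hd I T) : Bds 𝒮 Hd I T :=
  ⟨by omega, fun n => absurd hA n, fun _ _ _ => e, fun _ _ => by omega, fun _ _ _ _ => e⟩

lemma Bds.head (h : Lam c 𝒮 I T0) {J : Finset V} (b : Bds 𝒮 Hd I J) (hJ : J ∈ Hd) :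
    0 ≤ su 𝒮 Hd I J - co 𝒮 Hd I J ∧ (¬ ClA 𝒮 I J → 6 ≤ su 𝒮 Hd I J - co 𝒮 Hd I J) := by
  obtain ⟨c1, c2⟩ := co_head (𝒮 := 𝒮) (I := I) hJ
  have := b.g
  refine ⟨by omega, fun n => ?_⟩
  by_cases e : ∃ X, Ch 𝒮 I J X
  · have := b.b n e
    omega
  · rw [c2 fun X hX l => e ((ex_ch h hX l).imp fun _ e => e.1)]
    omega

lemma bds (h : Lam c 𝒮 I T0) (p : HdP 𝒮 Hd I T0) (T : Finset V) (hT : T ∈ 𝒮) :
    Bds 𝒮 Hd I T := by
  classical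
  induction hn : (I T).card using Nat.strong_induction_on generalizing T with
  | _ n ih =>
  have IH : ∀ J, Ch 𝒮 I T J → Bds 𝒮 Hd I J := fun J hJ =>
    ih _ (hn ▸ lt_card h hJ.1 hT hJ.2.1) J hJ.1 rfl
  have hW : ∀ a ∈ I T, a ∈ Hd.biUnion id → ∃ H ∈ Hd, a ∈ H ∧ Lt I H T := fun a ha hw => by
    obtain ⟨H, h1, h2⟩ := Finset.mem_biUnion.1 hw
    exact ⟨H, h1, h2, a, h2, ha⟩
  by_cases hch : ∃ J, Ch 𝒮 I T J
  swap
  · have nb : ∀ X ∈ 𝒮, ¬ Lt I X T := fun X hX l => hch ((ex_ch h hX l).imp fun _ e => e.1)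
    have nA : ¬ ClA 𝒮 I T := fun ⟨X, hX, _, _, l, _⟩ => nb X hX l
    obtain ⟨a, ha⟩ := h.ne T hT
    have := su_rec (Hd := Hd) h hT {a} (Finset.singleton_subset_iff.2 (Finset.mem_sdiff.2
      ⟨ha, fun hw => by
        obtain ⟨H, h1, -, h2⟩ := hW a ha hw
        exact nb H (p.sub h1) h2⟩)) fun J hJ => absurd ⟨J, hJ⟩ hch
    rw [Finset.sum_eq_zero fun J hJ => absurd ⟨J, (Finset.mem_filter.1 hJ).2⟩ hch] at this
    exact ⟨by simpa using this, fun _ e => absurd e hch, fun e => absurd e nA,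
      fun e => absurd e nA, fun e => absurd e nA⟩
  obtain ⟨D, hD, nD⟩ := hch.elim (p.ex T hT)
  have hh : ∀ J, Ch 𝒮 I T J → J ≠ D → J ∈ Hd := fun J hJ ne => by
    by_contra e
    exact ne (p.one T hT J D hJ hD e nD)
  have hDm : D ∈ 𝒮.filter (Ch 𝒮 I T) := Finset.mem_filter.2 ⟨hD.1, hD⟩
  have pos : ∀ J ∈ (𝒮.filter (Ch 𝒮 I T)).erase D, 0 ≤ su 𝒮 Hd I J - co 𝒮 Hd I J := fun J hJ => by
    obtain ⟨ne, hJ⟩ := Finset.mem_erase.1 hJ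
    have hJ := (Finset.mem_filter.1 hJ).2
    exact ((IH J hJ).head h (hh J hJ ne)).1
  have F0 := su_rec (Hd := Hd) h hT ∅ (Finset.empty_subset _) fun J _ => Finset.disjoint_empty_left _
  rw [← Finset.add_sum_erase _ _ hDm, Finset.card_empty] at F0
  have F1 : su 𝒮 Hd I D - co 𝒮 Hd I D ≤ su 𝒮 Hd I T := by
    have := Finset.sum_nonneg pos
    omega
  have F2 : ∀ J, Ch 𝒮 I T J → J ≠ D → ¬ ClA 𝒮 I J →
      su 𝒮 Hd I D - co 𝒮 Hd I D + 6 ≤ su 𝒮 Hd I T := fun J hJ ne n => by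
    have h1 := Finset.single_le_sum pos (Finset.mem_erase.2 ⟨ne, Finset.mem_filter.2 ⟨hJ.1, hJ⟩⟩)
    have h2 := ((IH J hJ).head h (hh J hJ ne)).2 n
    omega
  have bD := IH D hD
  have gD := bD.g
  obtain ⟨a, aD, aT⟩ := id hD.2.1
  by_cases aW : a ∈ Hd.biUnion id
  swap
  · have h1 := su_rec (Hd := Hd) h hT {a} (Finset.singleton_subset_iff.2
      (Finset.mem_sdiff.2 ⟨aT, aW⟩)) fun J hJ =>
        Finset.disjoint_singleton_left.2 fun e => hD.inc hJ ⟨a, aD, e⟩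
    rw [← Finset.add_sum_erase _ _ hDm, Finset.card_singleton] at h1
    have h2 := Finset.sum_nonneg pos
    have h3 : co 𝒮 Hd I D ≤ 8 := by
      by_cases e : ∃ M, Rr 𝒮 Hd I D M
      · obtain ⟨M, r⟩ := e
        rw [co_rr h p r]
        split_ifs <;> omega
      · rw [co_zero nD fun M r => e ⟨M, r⟩]
        omega
    exact Bds.of22 (by omega)
  obtain ⟨H, hH, aH, lH⟩ := hW a aT aW
  have hA : ClA 𝒮 I T := cla_of_head h p hT hH lH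
  have N : ¬ ClA 𝒮 I D → su 𝒮 Hd I D - co 𝒮 Hd I D + 6 ≤ su 𝒮 Hd I T := fun n => by
    by_contra hc
    refine n (cla_single h hA fun J hJ => ?_)
    by_contra ne
    exact hc (F2 J hJ ne fun e => n (p.cla T hT D J hD nD hJ e))
  by_cases hr : ∃ M, Rr 𝒮 Hd I D M
  swap
  · have c0 := co_zero (𝒮 := 𝒮) (I := I) nD fun M r => hr ⟨M, r⟩
    refine Bds.of21 hA ?_
    by_cases e : ClA 𝒮 I D
    · have := bD.a1 e nD fun M r => hr ⟨M, r⟩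
      omega
    · have := N e
      omega
  obtain ⟨M, r⟩ := hr
  have hM := p.sub r.2.1
  have hTM : T = M ∨ Lt I T M := by
    rcases up_chain h hD.1 hT hM hD.2.1 r.2.2.2.1 with e | e | e
    · exact Or.inl e
    · exact Or.inr e
    · exact absurd e (hD.2.2 M hM r.2.2.2.1)
  have aM : a ∉ M := fun e => Finset.disjoint_left.1 (h.dis M hM) e
    (hTM.elim (fun e => e ▸ aT) fun e => (h.sub T hT M hM e).2 aT)
  have apex : D \ M = {a} := by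
    refine (Finset.eq_of_subset_of_card_le (Finset.singleton_subset_iff.2
      (Finset.mem_sdiff.2 ⟨aD, aM⟩)) ?_).symm
    have h1 := Finset.card_sdiff_add_card_inter D M
    rw [r.2.2.2.2.1, h.card D hD.1] at h1
    rw [Finset.card_singleton]
    omega
  have c3 : co 𝒮 Hd I D = 3 := by
    rw [co_rr h p r, apex, if_pos (Finset.singleton_subset_iff.2 aW)]
  have G : 15 ≤ su 𝒮 Hd I T := by
    by_cases e : ClA 𝒮 I D
    · have := bD.a3 e nD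
      omega
    · have := N e
      omega
  by_cases tH : T ∈ Hd
  · exact ⟨G, fun n => absurd hA n, fun _ e => absurd tH e, fun _ e => absurd tH e,
      fun _ M' r' => absurd tH r'.2.2.1⟩
  have lT : Lt I T M := hTM.resolve_left fun e => tH (e ▸ r.2.1)
  have rT : Rr 𝒮 Hd I T M := by
    refine ⟨hT, r.2.1, tH, lT, le_antisymm (inter_le h hT hM lT) ?_, fun X hX l1 l2 =>
      r.2.2.2.2.2 X hX (lt_tr h hT hX hD.2.1 l1) l2⟩
    rw [← r.2.2.2.2.1]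
    exact Finset.card_le_card fun v hv => Finset.mem_inter.2 ⟨corner h hD.1 hT hM hD.2.1 lT
      (Finset.mem_inter.1 hv).1 (Finset.mem_inter.1 hv).2, (Finset.mem_inter.1 hv).2⟩
  by_cases oth : ∃ J, Ch 𝒮 I T J ∧ J ≠ D
  · obtain ⟨J, hJ, ne⟩ := oth
    obtain ⟨e1, e2⟩ := p.bad T hT D J hD nD hJ ne ⟨M, hM, lT, r.2.2.2.2.1.ge⟩
    have h1 := F2 J hJ ne e2
    have h2 := bD.a3 e1 nD
    exact Bds.of21 hA (by omega)
  have only : ∀ J, Ch 𝒮 I T J → J = D := fun J hJ => by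
    by_contra ne
    exact oth ⟨J, hJ, ne⟩
  have low : ∀ H ∈ Hd, Lt I H T → Lt I H D := fun H hH l => by
    obtain ⟨J, hJ, e⟩ := ex_ch h (p.sub hH) l
    rw [only J hJ] at e
    exact e.resolve_left fun e => nD (e ▸ hH)
  have h1 := bD.a4 (cla_single h hA only) M r
    ⟨H, hH, low H hH lH, apex ▸ Finset.singleton_subset_iff.2 aH⟩
  refine ⟨G, fun n => absurd hA n, fun _ _ e => absurd rT (e M), fun _ _ => by omega,
    fun _ M' r' ⟨H', hH', l', s'⟩ => ?_⟩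
  obtain rfl := rr_uniq h p rT r'
  have h2 := Finset.card_sdiff_add_card_inter T M
  rw [rT.2.2.2.2.1, h.card T hT] at h2
  obtain ⟨b, hb⟩ := Finset.card_pos.1 (show 0 < (T \ M).card by omega)
  obtain ⟨bT, bM⟩ := Finset.mem_sdiff.1 hb
  have bD' := corner h (p.sub hH') hD.1 hT (low H' hH' l') hD.2.1 (s' hb) bT
  have e : b = a := Finset.mem_singleton.1 (apex ▸ Finset.mem_sdiff.2 ⟨bD', bM⟩)
  exact absurd aT (e ▸ Finset.disjoint_left.1 (h.dis T hT) bT)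

end Sel1Aux

open Sel1Aux in
theorem sel1 : StmtSEL1 := by
  intro V _ _ c 𝒮 I T0 h
  classical
  obtain ⟨Hd, p⟩ := ex_hd h
  refine ⟨Hd, p.sub, p.root, fun X hX Y hY a b ne n1 n2 => sep h p hX hY a b ne n1 n2, ?_⟩
  have h1 := (bds h p T0 h.root).g
  have n0 : ∀ M ∈ 𝒮, ¬ Lt I T0 M := fun M hM l => by
    by_cases e : M = T0
    · exact lt_irr h h.root (e ▸ l)
    · exact lt_irr h h.root (lt_tr h hM h.root l (h.top M hM e))
  have h2 : ∑ J ∈ 𝒮.filter fun J => Lt I J T0, co 𝒮 Hd I J = ∑ J ∈ 𝒮, co 𝒮 Hd I J := by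
    refine Finset.sum_filter_of_ne fun J hJ ne => h.top J hJ fun e => ne ?_
    rw [e]
    exact co_zero p.root fun M r => n0 M (p.sub r.2.1) r.2.2.2.1
  have h3 : (I T0 \ Hd.biUnion id).card + (Hd.biUnion id).card ≤ Fintype.card V := by
    rw [← Finset.card_union_of_disjoint Finset.sdiff_disjoint]
    exact Finset.card_le_univ _
  have h4 : ∑ J ∈ 𝒮, co 𝒮 Hd I J ≤ 15 * (I T0 \ Hd.biUnion id).card := by
    rw [← h2]
    simp only [su] at h1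
    have : ((∑ J ∈ 𝒮.filter fun J => Lt I J T0, co 𝒮 Hd I J : ℕ) : ℤ) ≤
        15 * ((I T0 \ Hd.biUnion id).card : ℤ) := by
      push_cast
      linarith
    exact_mod_cast this
  have e1 : ∑ J ∈ 𝒮, (if J ∈ Hd then 9 else 0) = 9 * Hd.card := by
    rw [← Finset.sum_filter, Finset.filter_mem_eq_inter, Finset.inter_eq_right.2 p.sub]
    simp [mul_comm]
  have e2 : ∑ J ∈ 𝒮, (if J ∈ Hd ∧ ∃ X, Rr 𝒮 Hd I X J then 6 else 0) =
      6 * (Hd.filter fun T => ∃ J, Rr 𝒮 Hd I J T).card := by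
    rw [← Finset.sum_filter, ← Finset.filter_filter, Finset.filter_mem_eq_inter,
      Finset.inter_eq_right.2 p.sub]
    simp [mul_comm]
  have e3 : ∑ J ∈ 𝒮, co 𝒮 Hd I J = 9 * Hd.card +
      6 * (Hd.filter fun T => ∃ J, Rr 𝒮 Hd I J T).card +
      ∑ x ∈ (𝒮 ×ˢ Hd).filter (fun x => Rr 𝒮 Hd I x.1 x.2),
        (if x.1 \ x.2 ⊆ Hd.biUnion id then 3 else 8) := by
    rw [← e1, ← e2, Finset.sum_filter, Finset.sum_product, ← Finset.sum_add_distrib,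
      ← Finset.sum_add_distrib]
    refine Finset.sum_congr rfl fun J _ => ?_
    unfold co
    convert rfl
  omega

end Pool.Agent.MP_856573_co.H74
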